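import Pool.Agent.U247.ZF.Main

/-!
# Zeros in character table rows and the index of the Fitting subgroup, for all finite groups

`m(G)` is the largest number of zeros in a row of the character table of `G`.  For ALL finite groups `G` and all
solvable normal subgroups `R` of `G` the index `|G : F(G)|` is bounded in terms of `m(G)` and `|G : R|`.

Every term `F_k(G)` of the Fitting series is a solvable normal subgroup.  It is known that `|G : F_8(G)|` is bounded
in terms of `m(G)` for all finite groups `G` (this is in the list of known results of the problem; the proof uses the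
classification of the finite simple groups).  So `|G : F(G)|` is bounded in terms of `m(G)`, for all finite groups.

The starting library `Pool.Agent.K3h10.MS` (frozen statement `S01023` of the problem `MP_29fe3f_al`) has the case of
solvable groups `G`, without further assumptions, by an induction on `m(G)`: if the bound `m` is not attained in
`G / F_2(G)`, use the bound for `m - 1` and two steps down the Fitting series (`index_step`, for all finite groups);
if it is attained, then all irreducible characters of `G` are different from `0` on `F_2(G)` and (for solvable `G`)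
`F_2(G) = F(G)`, so `G = F(G)`.  New here: if no irreducible character of an arbitrary finite group `G` vanishes at an
element of a solvable normal subgroup `X`, then `X` is nilpotent (otherwise a minimal normal subgroup of `G / F(G)` in
the image of `X` has a regular orbit on the linear characters of `F(G)` of order prime to `p`, and a character of `G`
over a point of this orbit vanishes at the elements of `X` outside `F(G)`).  So in the second case `G / F(G)` has no
nontrivial solvable normal subgroup and its order is at most `|G : R|`.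
-/

set_option autoImplicit false

namespace Pool.Agent.Results.MP_ad7422_al.FittingIndexAllGroups

open Pool.Agent.Helper218.NV Pool.Agent.K3h10.MS Pool.Agent.U247.ZF

/-- `F` is the Fitting subgroup: the largest normal nilpotent subgroup. -/
def IsFitting {G : Type} [Group G] (F : Subgroup G) : Prop :=
  F.Normal ∧ Group.IsNilpotent F ∧
    ∀ N : Subgroup G, N.Normal → Group.IsNilpotent N → N ≤ F

/-- `F 0 ≤ F 1 ≤ F 2 ≤ …` is the Fitting series: `F 0 = 1` and `F (i + 1) / F i` is the Fitting subgroup of
`G / F i`. -/
structure IsFittingSeries {G : Type} [Group G] (F : ℕ → Subgroup G) : Prop where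
  zero : F 0 = ⊥
  le : ∀ i, F i ≤ F (i + 1)
  succ : ∀ i, ∃ _ : (F i).Normal, IsFitting ((F (i + 1)).map (QuotientGroup.mk' (F i)))

/-- The number of conjugacy classes on which `χ` takes the value `0`. -/
noncomputable def zeros {G : Type} [Group G] (χ : G → ℂ) : ℕ :=
  {c : ConjClasses G | ∀ g : G, ConjClasses.mk g = c → χ g = 0}.ncard

/-- The irreducible complex characters of `G`. -/
def Irr (G : Type) [Group G] : Set (G → ℂ) :=
  {χ | ∃ V : FDRep ℂ G, CategoryTheory.Simple V ∧ V.character = χ}

/-- `m(G)`: the largest number of zeros in a row of the character table. -/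
noncomputable def maxZeros (G : Type) [Group G] : ℕ :=
  sSup {z | ∃ χ ∈ Irr G, zeros χ = z}

theorem zeros_le {G : Type} [Group G] [Finite G] {χ : G → ℂ} (hχ : χ ∈ Irr G) :
    zeros χ ≤ maxZeros G := by
  apply le_csSup
  · refine ⟨Nat.card (ConjClasses G), ?_⟩
    rintro _ ⟨χ, -, rfl⟩
    unfold zeros
    rw [← Set.ncard_univ]
    exact Set.ncard_le_ncard (Set.subset_univ _) (Set.toFinite _)
  · exact ⟨χ, hχ, rfl⟩

theorem ZB_maxZeros (G : Type) [Group G] [Finite G] : ZB G (maxZeros G) := by
  apply ZB_of_FDRep
  intro V hV
  refine le_trans ?_ (zeros_le ⟨V, hV, rfl⟩)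
  unfold zeros
  change Set.ncard {c : ConjClasses G | ∃ g : G, ConjClasses.mk g = c ∧ V.character g = 0} ≤ _
  apply Set.ncard_le_ncard _ (Set.toFinite _)
  rintro c ⟨g, hg, h0⟩ g' hg'
  rw [← hg] at hg'
  obtain ⟨t, ht⟩ := isConj_iff.1 (ConjClasses.mk_eq_mk_iff_isConj.1 hg')
  have h1 := FDRep.char_conj V g' t
  rw [ht, h0] at h1
  exact h1.symm

theorem isFitting_fitting (G : Type) [Group G] [Finite G] : IsFitting (fitting G) := fitting_spec G

theorem eq_fitting {G : Type} [Group G] [Finite G] {F : Subgroup G} (hF : IsFitting F) :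
    F = fitting G := by
  obtain ⟨h1, h2, h3⟩ := fitting_spec G
  exact le_antisymm (h3 F hF.1 hF.2.1) (hF.2.2 _ h1 h2)

/-- the Fitting series, with the proof that the terms are normal -/
noncomputable def fs (G : Type) [Group G] [Finite G] : ℕ → {N : Subgroup G // N.Normal}
  | 0 => ⟨⊥, inferInstance⟩
  | i + 1 =>
    have := (fs G i).2
    ⟨(fitting (G ⧸ (fs G i).1)).comap (QuotientGroup.mk' (fs G i).1),
      (fitting_spec (G ⧸ (fs G i).1)).1.comap _⟩

theorem exists_series (G : Type) [Group G] [Finite G] :
    ∃ F : ℕ → Subgroup G, IsFittingSeries F := by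
  refine ⟨fun i => (fs G i).1, rfl, ?_, ?_⟩
  · intro i x hx
    have h := (fs G i).2
    have h1 : QuotientGroup.mk' (fs G i).1 x = 1 := (QuotientGroup.eq_one_iff x).2 hx
    change QuotientGroup.mk' (fs G i).1 x ∈ fitting (G ⧸ (fs G i).1)
    rw [h1]
    exact Subgroup.one_mem _
  · intro i
    have h := (fs G i).2
    refine ⟨h, ?_⟩
    have h1 : ((fs G (i + 1)).1).map (QuotientGroup.mk' (fs G i).1) =
        fitting (G ⧸ (fs G i).1) :=
      Subgroup.map_comap_eq_self_of_surjective (QuotientGroup.mk'_surjective _) _
    rw [h1]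
    exact isFitting_fitting _

theorem series_solvable {G : Type} [Group G] {F : ℕ → Subgroup G} (hF : IsFittingSeries F) (k : ℕ) :
    Group.IsSolvable (F k) := by
  induction k with
  | zero =>
    rw [hF.zero]
    infer_instance
  | succ i ih =>
    obtain ⟨hn, hfit⟩ := hF.succ i
    have hnil : Group.IsNilpotent ((F (i + 1)).map (QuotientGroup.mk' (F i))) := hfit.2.1
    refine Group.isSolvable_of_ker_le_range (Subgroup.inclusion (hF.le i))
      ((QuotientGroup.mk' (F i)).subgroupMap (F (i + 1))) ?_
    intro x hx
    have h1 : QuotientGroup.mk' (F i) (x : G) = 1 := congrArg Subtype.val (MonoidHom.mem_ker.1 hx)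
    exact ⟨⟨x, (QuotientGroup.eq_one_iff _).1 h1⟩, rfl⟩

theorem fitting_le_series {G : Type} [Group G] [Finite G] {F : ℕ → Subgroup G}
    (hF : IsFittingSeries F) (k : ℕ) : fitting G ≤ F (k + 1) := by
  obtain ⟨hn, hfit⟩ := hF.succ k
  obtain ⟨h1, h2, -⟩ := fitting_spec G
  have h3 : Group.IsNilpotent ((fitting G).map (QuotientGroup.mk' (F k))) :=
    Group.nilpotent_of_surjective ((QuotientGroup.mk' (F k)).subgroupMap (fitting G))
      ((QuotientGroup.mk' (F k)).subgroupMap_surjective _)
  have h4 := hfit.2.2 _ (h1.map _ (QuotientGroup.mk'_surjective _)) h3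
  intro x hx
  obtain ⟨y, hy, hxy⟩ := h4 ⟨x, hx, rfl⟩
  have h5 : y⁻¹ * x ∈ F k := QuotientGroup.eq.1 hxy
  have h6 : x = y * (y⁻¹ * x) := by group
  rw [h6]
  exact (F (k + 1)).mul_mem hy (hF.le k h5)

/-- (1) There is a function `f` such that `|G : F(G)| ≤ f(m(G), |G : R|)` for every finite group `G` and every
solvable normal subgroup `R` of `G`.
(2) For each `k ≥ 1`: `|G : F(G)|` is bounded in terms of `m(G)` for all finite groups `G` (Q1) if and only if
`|G : F_k(G)|` is (this is known for `k = 8`). -/
theorem result :
    (∃ f : ℕ → ℕ → ℕ, ∀ (G : Type) [Group G] [Finite G] (F R : Subgroup G), IsFitting F →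
      R.Normal → Group.IsSolvable R → F.index ≤ f (maxZeros G) R.index) ∧
    (∀ k : ℕ, 1 ≤ k →
      ((∃ f : ℕ → ℕ, ∀ (G : Type) [Group G] [Finite G] (F : Subgroup G), IsFitting F →
          F.index ≤ f (maxZeros G)) ↔
        ∃ g : ℕ → ℕ, ∀ (G : Type) [Group G] [Finite G] (F : ℕ → Subgroup G),
          IsFittingSeries F → (F k).index ≤ g (maxZeros G))) := by
  choose b hb using Pool.Agent.U247.ZF.index_bound
  have key : ∀ (s : ℕ) (G : Type) [Group G] [Finite G] (F : Subgroup G), SB G s → IsFitting F →
      F.index ≤ b s (maxZeros G) := by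
    intro s G _ _ F hs hF
    rw [eq_fitting hF]
    exact hb s (maxZeros G) G hs (ZB_maxZeros G)
  refine ⟨⟨fun m s => b s m, ?_⟩, ?_⟩
  · intro G _ _ F R hF hRn hRs
    exact key R.index G F ⟨R, hRn, hRs, le_rfl⟩ hF
  · intro k hk
    constructor
    · rintro ⟨f, hf⟩
      refine ⟨f, ?_⟩
      intro G _ _ S hS
      obtain ⟨j, rfl⟩ : ∃ j, k = j + 1 := ⟨k - 1, by omega⟩
      refine le_trans (Nat.le_of_dvd ?_ (Subgroup.index_dvd_of_le (fitting_le_series hS j)))
        (hf G _ (isFitting_fitting G))
      exact Nat.pos_of_ne_zero Subgroup.index_ne_zero_of_finite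
    · rintro ⟨g, hg⟩
      refine ⟨fun m => b (g m) m, ?_⟩
      intro G _ _ F hF
      obtain ⟨S, hS⟩ := exists_series G
      exact key (g (maxZeros G)) G F
        ⟨S k, (hS.succ k).choose, series_solvable hS k, hg G S hS⟩ hF

end Pool.Agent.Results.MP_ad7422_al.FittingIndexAllGroups
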